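import Pool.Agent.W495.SF.Defs

namespace Pool.Agent.W495.SF

open Polynomial

/-- There are infinitely many monic irreducible polynomials (Euclid). -/
theorem infinite_point (k : Type*) [Field k] : Infinite (Point k) := by
  classical
  by_contra hfin
  rw [not_infinite_iff_finite] at hfin
  have := Fintype.ofFinite (Point k)
  set N : k[X] := X * ∏ f : Point k, f.1 + 1 with hN
  have hmon : (∏ f : Point k, f.1).Monic := monic_prod_of_monic _ _ (fun f _ => f.2.1)
  have hmon2 : (X * ∏ f : Point k, f.1).Monic := monic_X.mul hmon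
  have hdeg : 0 < (X * ∏ f : Point k, f.1).natDegree := by
    rw [monic_X.natDegree_mul hmon, natDegree_X]; omega
  have hNmon : N.Monic := by
    apply hmon2.add_of_left
    rw [degree_one]
    exact natDegree_pos_iff_degree_pos.mp hdeg
  have hNdeg : N.natDegree = (X * ∏ f : Point k, f.1).natDegree := by
    rw [hN, natDegree_add_eq_left_of_natDegree_lt]
    rw [natDegree_one]; exact hdeg
  have hNu : ¬ IsUnit N := by
    intro hu
    have := natDegree_eq_zero_of_isUnit hu
    omega
  obtain ⟨g, hg, hgN⟩ := WfDvdMonoid.exists_irreducible_factor hNu hNmon.ne_zero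
  have hg0 : g ≠ 0 := hg.ne_zero
  set f : Point k := ⟨g * C g.leadingCoeff⁻¹, monic_mul_leadingCoeff_inv hg0,
    irreducible_mul_leadingCoeff_inv.mpr hg⟩ with hf
  have hfg : f.1 ∣ g := by
    refine ⟨C g.leadingCoeff, ?_⟩
    rw [hf]
    simp only
    rw [mul_assoc, ← C_mul, inv_mul_cancel₀ (leadingCoeff_ne_zero.mpr hg0), C_1, mul_one]
  have h1 : f.1 ∣ X * ∏ f : Point k, f.1 :=
    Dvd.dvd.mul_left (Finset.dvd_prod_of_mem _ (Finset.mem_univ f)) _
  have h2 : f.1 ∣ N := hfg.trans hgN
  have h3 : f.1 ∣ 1 := (dvd_add_right h1).mp h2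
  exact f.2.2.not_isUnit (isUnit_of_dvd_one h3)

end Pool.Agent.W495.SF
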