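import Pool.Agent.W495.SF.Smooth

namespace Pool.Agent.W495.SF

open Polynomial TensorProduct

variable (k : Type*) [Field k]

/-- the inclusion `k(t) ⊗ k[t] → k(t) ⊗ k(t)` -/
noncomputable def incl : RatFunc k ⊗[k] k[X] →ₐ[k] RatFunc k ⊗[k] RatFunc k :=
  Algebra.TensorProduct.map (AlgHom.id k (RatFunc k)) (IsScalarTower.toAlgHom k k[X] (RatFunc k))

theorem incl_injective : Function.Injective (incl k) := by
  have h : Function.Injective (IsScalarTower.toAlgHom k k[X] (RatFunc k)).toLinearMap :=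
    IsFractionRing.injective k[X] (RatFunc k)
  exact Module.Flat.lTensor_preserves_injective_linearMap (M := RatFunc k) _ h

theorem exists_denom (z : RatFunc k ⊗[k] RatFunc k) :
    ∃ b : k[X], b ≠ 0 ∧ ∃ y, ((1 : RatFunc k) ⊗ₜ[k] algebraMap k[X] (RatFunc k) b) * z = incl k y := by
  induction z using TensorProduct.induction_on with
  | zero => exact ⟨1, one_ne_zero, 0, by simp⟩
  | tmul u v =>
    obtain ⟨a, b, hb, rfl⟩ := IsFractionRing.div_surjective (A := k[X]) v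
    have hb0 : algebraMap k[X] (RatFunc k) b ≠ 0 := by
      simpa using nonZeroDivisors.ne_zero hb
    refine ⟨b, nonZeroDivisors.ne_zero hb, u ⊗ₜ a, ?_⟩
    rw [Algebra.TensorProduct.tmul_mul_tmul, one_mul, mul_div_cancel₀ _ hb0]
    simp [incl]
  | add z₁ z₂ h₁ h₂ =>
    obtain ⟨b₁, hb₁, y₁, e₁⟩ := h₁
    obtain ⟨b₂, hb₂, y₂, e₂⟩ := h₂
    refine ⟨b₁ * b₂, mul_ne_zero hb₁ hb₂,
      ((1 : RatFunc k) ⊗ₜ[k] b₂) * y₁ + ((1 : RatFunc k) ⊗ₜ[k] b₁) * y₂, ?_⟩
    have f₁ : incl k ((1 : RatFunc k) ⊗ₜ[k] b₁) = (1 : RatFunc k) ⊗ₜ[k] algebraMap k[X] (RatFunc k) b₁ := by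
      simp [incl]
    have f₂ : incl k ((1 : RatFunc k) ⊗ₜ[k] b₂) = (1 : RatFunc k) ⊗ₜ[k] algebraMap k[X] (RatFunc k) b₂ := by
      simp [incl]
    have e : (1 : RatFunc k) ⊗ₜ[k] algebraMap k[X] (RatFunc k) (b₁ * b₂) =
        ((1 : RatFunc k) ⊗ₜ[k] algebraMap k[X] (RatFunc k) b₁) *
        ((1 : RatFunc k) ⊗ₜ[k] algebraMap k[X] (RatFunc k) b₂) := by
      rw [Algebra.TensorProduct.tmul_mul_tmul, map_mul, one_mul]
    rw [e, map_add, map_mul (incl k), map_mul (incl k), f₁, f₂, ← e₁, ← e₂]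
    ring

theorem dgen_regular (z : RatFunc k ⊗[k] RatFunc k) (h : dgen k * z = 0) : z = 0 := by
  obtain ⟨b, hb, y, hy⟩ := exists_denom k z
  have hb0 : algebraMap k[X] (RatFunc k) b ≠ 0 := by simpa using hb
  set d' : RatFunc k ⊗[k] k[X] := (RatFunc.X : RatFunc k) ⊗ₜ[k] (1 : k[X]) -
    (1 : RatFunc k) ⊗ₜ[k] (X : k[X]) with hd'
  have hincl : incl k d' = dgen k := by
    simp [incl, hd', dgen]
  have h1 : incl k (d' * y) = 0 := by
    rw [map_mul, hincl, ← hy, mul_left_comm, h, mul_zero]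
  have h2 : d' * y = 0 := incl_injective k (by rw [h1, map_zero])
  have h3 : (polyEquivTensor k (RatFunc k)).symm d' * (polyEquivTensor k (RatFunc k)).symm y = 0 := by
    rw [← map_mul, h2, map_zero]
  have h4 : (polyEquivTensor k (RatFunc k)).symm d' ≠ 0 := by
    rw [hd', map_sub, polyEquivTensor_symm_apply_tmul_eq_smul,
      polyEquivTensor_symm_apply_tmul_eq_smul]
    intro h5
    have h6 := congrArg (fun q : (RatFunc k)[X] => q.coeff 1) h5
    simp at h6
    simp [Polynomial.coeff_one] at h6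
  have h5 : y = 0 := by
    have := (mul_eq_zero.mp h3).resolve_left h4
    simpa using this
  rw [h5, map_zero] at hy
  have h6 : ((1 : RatFunc k) ⊗ₜ[k] (algebraMap k[X] (RatFunc k) b)⁻¹) *
      (((1 : RatFunc k) ⊗ₜ[k] algebraMap k[X] (RatFunc k) b) * z) = z := by
    rw [← mul_assoc, Algebra.TensorProduct.tmul_mul_tmul, one_mul, inv_mul_cancel₀ hb0,
      ← Algebra.TensorProduct.one_def, one_mul]
  rw [← h6, hy, mul_zero]

theorem hasLengthOneResolution : HasLengthOneResolution k (RatFunc k) :=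
  ⟨dgen k, dgen_regular k, ker_eq k⟩

end Pool.Agent.W495.SF
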