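import Mathlib

/-!
# Schur-finiteness: tensor powers, Young symmetrizers, and the facts about `U(k(t))`
-/

namespace Pool.Agent.W495.SF

open CategoryTheory Polynomial TensorProduct

universe v u

/-- The `n`-fold tensor powers in a `ℚ`-linear symmetric monoidal category `C`, with the maps
`f₁ ⊗ ⋯ ⊗ fₙ` and the action of the symmetric groups through the symmetry of `⊗`. -/
structure TensorPowers (C : Type u) [Category.{v} C] [Preadditive C] [Linear ℚ C] where
  /-- the object `a^{⊗n}` -/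
  obj : ℕ → C → C
  /-- `f₁ ⊗ ⋯ ⊗ fₙ : a^{⊗n} ⟶ b^{⊗n}`, linear in each `fᵢ : a ⟶ b` -/
  map : ∀ (n : ℕ) (a b : C), MultilinearMap ℚ (fun _ : Fin n => (a ⟶ b)) (obj n a ⟶ obj n b)
  map_id : ∀ (n : ℕ) (a : C), map n a a (fun _ => 𝟙 a) = 𝟙 (obj n a)
  map_comp : ∀ (n : ℕ) (a b c : C) (f : Fin n → (a ⟶ b)) (g : Fin n → (b ⟶ c)),
    map n a c (fun i => f i ≫ g i) = map n a b f ≫ map n b c g
  /-- `σ` moves the factor at place `i` of `a^{⊗n}` to place `σ i` -/
  perm : ∀ (n : ℕ) (a : C), Equiv.Perm (Fin n) →* End (obj n a)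
  perm_natural : ∀ (n : ℕ) (a b : C) (f : Fin n → (a ⟶ b)) (σ : Equiv.Perm (Fin n)),
    map n a b f ≫ (perm n b σ : obj n b ⟶ obj n b) =
      (perm n a σ : obj n a ⟶ obj n a) ≫ map n a b (fun i => f (σ⁻¹ i))

variable {C : Type u} [Category.{v} C] [Preadditive C] [Linear ℚ C]

/-- The action of the group algebra `ℚ[Sₙ]` on `a^{⊗n}`. -/
noncomputable def TensorPowers.act (P : TensorPowers C) (n : ℕ) (a : C) :
    MonoidAlgebra ℚ (Equiv.Perm (Fin n)) →ₐ[ℚ] End (P.obj n a) :=
  MonoidAlgebra.lift ℚ (End (P.obj n a)) (Equiv.Perm (Fin n)) (P.perm n a)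

open Classical in
/-- The Young symmetrizer of a tableau: `T i` is the box (row, column) which contains the number
`i`. It is the sum of the permutations which preserve the rows, times the signed sum of those which
preserve the columns. -/
noncomputable def youngSymmetrizer {n : ℕ} (T : Fin n → ℕ × ℕ) :
    MonoidAlgebra ℚ (Equiv.Perm (Fin n)) :=
  (∑ σ ∈ Finset.univ.filter (fun σ : Equiv.Perm (Fin n) => ∀ i, (T (σ i)).1 = (T i).1),
      MonoidAlgebra.single σ (1 : ℚ)) *
  (∑ τ ∈ Finset.univ.filter (fun τ : Equiv.Perm (Fin n) => ∀ i, (T (τ i)).2 = (T i).2),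
      MonoidAlgebra.single τ ((Equiv.Perm.sign τ : ℤ) : ℚ))

/-- `a` is Schur-finite: the Young symmetrizer of some tableau with `n ≥ 1` boxes acts as zero on
`a^{⊗n}`, i.e. `S_μ(a) = 0` for some partition `μ` of `n`. -/
def SchurFinite (P : TensorPowers C) (a : C) : Prop :=
  ∃ (n : ℕ) (_ : 1 ≤ n) (μ : YoungDiagram) (T : Fin n ≃ μ.cells),
    P.act n a (youngSymmetrizer (fun i => (T i : ℕ × ℕ))) = 0

/-- The bimodule `A` has a resolution `0 → A ⊗ A → A ⊗ A → A → 0` by free bimodules of rank one;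
so it is perfect, i.e. the algebra `A` is smooth over `k` in the sense of Kontsevich. -/
def HasLengthOneResolution (k A : Type*) [CommRing k] [CommRing A] [Algebra k A] : Prop :=
  ∃ d : A ⊗[k] A, (∀ z, d * z = 0 → z = 0) ∧
    ∀ z : A ⊗[k] A, Algebra.TensorProduct.lmul' k z = 0 ↔ ∃ w, z = d * w

/-- The monic irreducible polynomials: the closed points of the affine line over `k`. -/
def Point (k : Type*) [Field k] : Type _ := {f : k[X] // f.Monic ∧ Irreducible f}

/-- The published facts on the motives `L = U(k)[1]` and `a = U(k(t))` in `NMot(k)_ℚ`. -/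
structure FunctionFieldFacts (k : Type*) [Field k] (P : TensorPowers C) (L a : C) where
  /-- `L^{⊗n} = U(k)[n]` is not zero (its ring of endomorphisms is `K₀(k)_ℚ = ℚ`) -/
  pow_ne_zero : ∀ n : ℕ, 𝟙 (P.obj n L) ≠ 0
  /-- the class of the function `g ∈ k(t)^× = K₁(k(t))` in `Hom(U(k)[1], U(k(t)))` -/
  sym : Point k → (L ⟶ a)
  /-- the residue at the closed point `f`: the boundary map `U(k(t)) ⟶ U(perf_f(O_f))[1]` of the
  localisation sequence of the local ring `O_f`, followed by the forgetful functor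
  `perf_f(O_f) → perf(k)` -/
  res : Point k → (a ⟶ L)
  /-- the residue at `f` of the class of `g` is the class of the `k`-vector space `O_f/g` in
  `K₀(k) = ℤ` -/
  res_self : ∀ f : Point k, sym f ≫ res f = (f.1.natDegree : ℚ) • 𝟙 L
  res_of_ne : ∀ f g : Point k, f ≠ g → sym g ≫ res f = 0

end Pool.Agent.W495.SF
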