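import Pool.Agent.W495.SF.Defs

namespace Pool.Agent.W495.SF

open CategoryTheory Polynomial TensorProduct

universe v u

section Young

lemma youngSymmetrizer_ne_zero {n : ℕ} (T : Fin n → ℕ × ℕ) (hT : Function.Injective T) :
    youngSymmetrizer T ≠ 0 := by
  classical
  intro h
  have h1 : (youngSymmetrizer T).coeff 1 = 0 := by rw [h]; rfl
  simp only [youngSymmetrizer, Finset.sum_mul_sum, MonoidAlgebra.single_mul_single,
    MonoidAlgebra.coeff_sum, Finsupp.finsetSum_apply, MonoidAlgebra.coeff_single, Finsupp.single_apply] at h1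
  rw [Finset.sum_eq_single 1, Finset.sum_eq_single 1] at h1
  · simp at h1
  · intro τ _ hτ
    rw [if_neg]
    simpa using hτ
  · intro h2; exact absurd h2 (by simp)
  · intro σ hσ hσ1
    refine Finset.sum_eq_zero fun τ hτ => ?_
    rw [if_neg]
    intro h2
    have h3 : σ = τ⁻¹ := mul_eq_one_iff_eq_inv.mp h2
    apply hσ1
    ext1 i
    apply hT
    have hr := (Finset.mem_filter.mp hσ).2 i
    have hc := (Finset.mem_filter.mp hτ).2 (σ i)
    rw [h3] at hc hr ⊢
    have e : τ (τ⁻¹ i) = i := by simp
    rw [e] at hc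
    exact Prod.ext hr hc.symm
  · intro h2; exact absurd h2 (by simp)

end Young

section Abstract

variable {C : Type u} [Category.{v} C] [Preadditive C] [Linear ℚ C]

/-- The action of a permutation, as a morphism. -/
def permHom (P : TensorPowers C) (n : ℕ) (a : C) (σ : Equiv.Perm (Fin n)) :
    P.obj n a ⟶ P.obj n a := P.perm n a σ

/-- The action of an element of the group algebra, as a morphism. -/
noncomputable def actHom (P : TensorPowers C) (n : ℕ) (a : C)
    (x : MonoidAlgebra ℚ (Equiv.Perm (Fin n))) :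
    P.obj n a ⟶ P.obj n a := P.act n a x

lemma actHom_apply (P : TensorPowers C) (n : ℕ) (a : C)
    (x : MonoidAlgebra ℚ (Equiv.Perm (Fin n))) :
    actHom P n a x = ∑ σ : Equiv.Perm (Fin n), x.coeff σ • permHom P n a σ := by
  unfold actHom
  rw [TensorPowers.act, MonoidAlgebra.lift_apply]
  exact Finsupp.sum_fintype _ _ (fun σ => zero_smul _ _)

theorem act_injective (P : TensorPowers C) (L a : C) (hL : ∀ n : ℕ, 𝟙 (P.obj n L) ≠ 0)
    (i : ℕ → (L ⟶ a)) (p : ℕ → (a ⟶ L)) (hself : ∀ s, i s ≫ p s = 𝟙 L)
    (hne : ∀ s t, s ≠ t → i s ≫ p t = 0) (n : ℕ) : Function.Injective (P.act n a) := by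
  classical
  rw [injective_iff_map_eq_zero]
  intro x hx
  ext τ
  have h0 : (P.map n L a (fun j => i j)) ≫ actHom P n a x ≫
      P.map n a L (fun j => p (τ⁻¹ j : Fin n)) = 0 := by
    have : actHom P n a x = 0 := hx
    rw [this]; simp
  rw [actHom_apply] at h0
  have h1 : ∀ σ : Equiv.Perm (Fin n), (P.map n L a (fun j => i j)) ≫
      permHom P n a σ ≫ P.map n a L (fun j => p (τ⁻¹ j : Fin n)) =
      if σ = τ then permHom P n L τ else 0 := by
    intro σ
    have hnat : P.map n L a (fun j => i j) ≫ permHom P n a σ =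
      permHom P n L σ ≫ P.map n L a (fun j => i (σ⁻¹ j : Fin n)) :=
        P.perm_natural n L a (fun j => i j) σ
    rw [← Category.assoc, hnat, Category.assoc, ← P.map_comp]
    split_ifs with h
    · subst h
      simp only [hself, P.map_id, Category.comp_id]
    · obtain ⟨j, hj⟩ : ∃ j, σ⁻¹ j ≠ τ⁻¹ j := by
        by_contra hcon
        push Not at hcon
        exact h (inv_injective (Equiv.ext hcon))
      rw [MultilinearMap.map_coord_zero (P.map n L L) j, Limits.comp_zero]
      exact hne _ _ (fun h => hj (Fin.ext h))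
  have h2 : x.coeff τ • permHom P n L τ = 0 := by
    rw [← h0]
    simp only [Preadditive.sum_comp, Preadditive.comp_sum, Linear.smul_comp, Linear.comp_smul, h1,
      smul_ite, smul_zero, Finset.sum_ite_eq', Finset.mem_univ, if_true]
  rcases smul_eq_zero.mp h2 with h3 | h3
  · exact h3
  · exfalso
    apply hL n
    have h4 : (P.perm n L τ : End (P.obj n L)) * P.perm n L τ⁻¹ = 1 := by
      rw [← map_mul, mul_inv_cancel, map_one]
    have h5 : (1 : End (P.obj n L)) = 0 := by
      rw [← h4]
      have : (P.perm n L τ : End (P.obj n L)) = 0 := h3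
      rw [this, zero_mul]
    exact h5

theorem not_schurFinite (P : TensorPowers C) (a : C)
    (h : ∀ n, Function.Injective (P.act n a)) : ¬ SchurFinite P a := by
  rintro ⟨n, hn, μ, T, hT⟩
  have h1 : youngSymmetrizer (fun i => (T i : ℕ × ℕ)) = 0 :=
    h n (by rw [hT, map_zero])
  exact youngSymmetrizer_ne_zero _ (Subtype.val_injective.comp T.injective) h1

end Abstract

end Pool.Agent.W495.SF
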