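import Pool.Agent.W495.SF.Defs

namespace Pool.Agent.W495.SF

open Polynomial TensorProduct

variable (k : Type*) [Field k]

/-- the generator `t ⊗ 1 - 1 ⊗ t` of the kernel of the multiplication -/
noncomputable def dgen : RatFunc k ⊗[k] RatFunc k :=
  (RatFunc.X : RatFunc k) ⊗ₜ[k] (1 : RatFunc k) - (1 : RatFunc k) ⊗ₜ[k] (RatFunc.X : RatFunc k)

/-- two `k`-algebra maps out of `k(t)` which agree at `t` are equal -/
theorem ratFunc_hom_ext {R : Type*} [CommRing R] [Algebra k R] (φ ψ : RatFunc k →ₐ[k] R)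
    (h : φ RatFunc.X = ψ RatFunc.X) (u : RatFunc k) : φ u = ψ u := by
  have hp : ∀ g : k[X], φ (algebraMap k[X] (RatFunc k) g) = ψ (algebraMap k[X] (RatFunc k) g) := by
    intro g
    have : (φ.comp (IsScalarTower.toAlgHom k k[X] (RatFunc k))) =
        (ψ.comp (IsScalarTower.toAlgHom k k[X] (RatFunc k))) := by
      apply Polynomial.algHom_ext
      simpa using h
    exact DFunLike.congr_fun this g
  obtain ⟨a, b, hb, rfl⟩ := IsFractionRing.div_surjective (A := k[X]) u
  have hb0 : algebraMap k[X] (RatFunc k) b ≠ 0 := by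
    simpa using nonZeroDivisors.ne_zero hb
  have hu : IsUnit (φ (algebraMap k[X] (RatFunc k) b)) := (IsUnit.mk0 _ hb0).map φ
  apply hu.mul_left_cancel
  rw [← map_mul, mul_div_cancel₀ _ hb0, hp b, ← map_mul, mul_div_cancel₀ _ hb0, hp a]

theorem ker_eq (z : RatFunc k ⊗[k] RatFunc k) :
    Algebra.TensorProduct.lmul' k z = 0 ↔ ∃ w, z = dgen k * w := by
  constructor
  · intro hz
    have hmem : z ∈ Ideal.span {dgen k} := by
      have hz' : z ∈ KaehlerDifferential.ideal k (RatFunc k) := hz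
      rw [← KaehlerDifferential.span_range_eq_ideal] at hz'
      refine Ideal.span_le.mpr ?_ hz'
      rintro _ ⟨u, rfl⟩
      let I : Ideal (RatFunc k ⊗[k] RatFunc k) := Ideal.span {dgen k}
      let φ : RatFunc k →ₐ[k] ((RatFunc k ⊗[k] RatFunc k) ⧸ I) :=
        (Ideal.Quotient.mkₐ k I).comp Algebra.TensorProduct.includeLeft
      let ψ : RatFunc k →ₐ[k] ((RatFunc k ⊗[k] RatFunc k) ⧸ I) :=
        (Ideal.Quotient.mkₐ k I).comp Algebra.TensorProduct.includeRight
      have h : φ RatFunc.X = ψ RatFunc.X := by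
        change Ideal.Quotient.mk I _ = Ideal.Quotient.mk I _
        rw [Ideal.Quotient.eq]
        exact Ideal.subset_span rfl
      have h2 := ratFunc_hom_ext k φ ψ h u
      change Ideal.Quotient.mk I _ = Ideal.Quotient.mk I _ at h2
      have h3 := (Ideal.Quotient.eq).mp h2.symm
      exact h3
    obtain ⟨w, hw⟩ := Ideal.mem_span_singleton'.mp hmem
    exact ⟨w, by rw [← hw, mul_comm]⟩
  · rintro ⟨w, rfl⟩
    rw [map_mul]
    have : Algebra.TensorProduct.lmul' k (dgen k) = 0 := by
      simp [dgen]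
    rw [this, zero_mul]

end Pool.Agent.W495.SF
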